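import Pool.Agent.R303.LW.A

/-!
# The Liouville summatory function on logarithmic windows: both signs, and the one-sided bound of Q2

`F(x) = x^(1/2) (log log log x)^(5/4)`.

1. If `ζ` has a zero with real part `β > 1/2`, then for some `c > 0` and all large `x` the function `L`
   takes values `≥ c y^β` and values `≤ -c y^β` at points `y` of the window `[x, x log x]`.
2. Let `s = 1` or `s = -1`. If for some `K` there are arbitrarily large `x` with `s L(y) ≤ K F(y)` for all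
   `y ∈ [x, x log x]`, then the Riemann hypothesis holds.
3. Let `s = 1` or `s = -1`. The Riemann hypothesis holds if and only if for every `ε > 0` there are
   arbitrarily large `x` with `s L(y) ≤ y^(1/2+ε)` for all `y ∈ [x, x log x]`.
-/

set_option autoImplicit false

open Filter Topology

namespace Pool.Agent.Results.MP_a499ba_nt.LiouvilleLogWindows

/-- The summatory function of the Liouville function. -/
noncomputable def L (x : ℝ) : ℝ := ∑ n ∈ Finset.Icc 1 ⌊x⌋₊, ((ArithmeticFunction.liouville n : ℤ) : ℝ)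

/-- `F(x) = x^(1/2) (log log log x)^(5/4)`. -/
noncomputable def F (x : ℝ) : ℝ := x ^ (1 / 2 : ℝ) * Real.log (Real.log (Real.log x)) ^ (5 / 4 : ℝ)

lemma L_eq (x : ℝ) : L x = Pool.Agent.R303.LW.LL x := rfl

theorem part1 (ρ : ℂ) (hz : riemannZeta ρ = 0) (h0 : 1 / 2 < ρ.re) (h1 : ρ.re < 1) :
    ∃ c : ℝ, 0 < c ∧ ∀ᶠ x : ℝ in atTop,
      (∃ y ∈ Set.Icc x (x * Real.log x), c * y ^ ρ.re ≤ L y) ∧
      ∃ y ∈ Set.Icc x (x * Real.log x), L y ≤ -(c * y ^ ρ.re) := by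
  obtain ⟨c, hc, h⟩ := Pool.Agent.R303.LW.signsL ρ hz h0 h1
  refine ⟨c, hc, ?_⟩
  filter_upwards [h] with x hx
  obtain ⟨y, hy, hy2⟩ := hx 1 (Or.inl rfl)
  obtain ⟨z, hz1, hz2⟩ := hx (-1) (Or.inr rfl)
  rw [one_mul] at hy2
  exact ⟨⟨y, hy, hy2⟩, z, hz1, by rw [le_neg]; rwa [neg_one_mul] at hz2⟩

/-- a one-sided bound by `y^(β - η)` on isolated windows excludes zeros with real part `β` -/
lemma key (s : ℝ) (hs : s = 1 ∨ s = -1) (ρ : ℂ) (hz : riemannZeta ρ = 0) (h0 : 1 / 2 < ρ.re) (h1 : ρ.re < 1)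
    (g : ℝ → ℝ) (hg : ∀ c : ℝ, 0 < c → ∀ᶠ y : ℝ in atTop, g y < c * y ^ ρ.re)
    (h : ∃ᶠ x : ℝ in atTop, ∀ y ∈ Set.Icc x (x * Real.log x), s * L y ≤ g y) : False := by
  obtain ⟨c, hc, hw⟩ := Pool.Agent.R303.LW.signsL ρ hz h0 h1
  obtain ⟨Y, hY⟩ := eventually_atTop.1 (hg c hc)
  obtain ⟨x, a1, a2, a3⟩ := (h.and_eventually (hw.and (eventually_ge_atTop Y))).exists
  obtain ⟨y, hy, hy2⟩ := a2 s hs
  have b1 := hY y (a3.trans hy.1)
  have b2 := a1 y hy
  rw [L_eq] at b2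
  linarith

lemma F_small (K : ℝ) {β : ℝ} (hβ : 1 / 2 < β) (c : ℝ) (hc : 0 < c) :
    ∀ᶠ y : ℝ in atTop, K * F y < c * y ^ β := by
  have h1 : ∀ᶠ y : ℝ in atTop, ‖Real.log y ^ (5 / 4 : ℝ)‖ ≤ (c / (2 * (|K| + 1))) * ‖y ^ (β - 1 / 2)‖ :=
    (isLittleO_log_rpow_rpow_atTop (5 / 4) (by linarith)).def (by positivity)
  have hl := Real.tendsto_log_atTop
  have hll := hl.comp hl
  have e2 : ∀ᶠ y : ℝ in atTop, 1 ≤ Real.log (Real.log y) := hll.eventually_ge_atTop 1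
  have hlll := hl.comp hll
  have e3 : ∀ᶠ y : ℝ in atTop, 0 ≤ Real.log (Real.log (Real.log y)) := hlll.eventually_ge_atTop 0
  filter_upwards [h1, hl.eventually_gt_atTop 1, e2, e3, eventually_gt_atTop (1:ℝ)] with y a1 a2 a3 a4 a5
  have hy0 : 0 < y := by linarith
  have b1 : 0 < y ^ (β - 1 / 2) := Real.rpow_pos_of_pos hy0 _
  rw [Real.norm_of_nonneg (Real.rpow_nonneg (by linarith) _), Real.norm_of_nonneg b1.le] at a1
  have b2 : Real.log (Real.log (Real.log y)) ≤ Real.log y :=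
    ((Real.log_le_sub_one_of_pos (by linarith)).trans (by linarith)).trans
      ((Real.log_le_sub_one_of_pos (by linarith)).trans (by linarith : Real.log y - 1 ≤ Real.log y))
  have b3 : Real.log (Real.log (Real.log y)) ^ (5 / 4 : ℝ) ≤ Real.log y ^ (5 / 4 : ℝ) :=
    Real.rpow_le_rpow a4 b2 (by norm_num)
  have b4 : 0 ≤ Real.log (Real.log (Real.log y)) ^ (5 / 4 : ℝ) := Real.rpow_nonneg a4 _
  have b5 : |K| * (c / (2 * (|K| + 1))) ≤ c / 2 := by
    rw [mul_div_assoc', div_le_div_iff₀ (by positivity) (by norm_num)]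
    have := abs_nonneg K
    nlinarith
  have b6 : K * Real.log (Real.log (Real.log y)) ^ (5 / 4 : ℝ) < c * y ^ (β - 1 / 2) := by
    calc K * Real.log (Real.log (Real.log y)) ^ (5 / 4 : ℝ) ≤
          |K| * Real.log (Real.log (Real.log y)) ^ (5 / 4 : ℝ) := mul_le_mul_of_nonneg_right (le_abs_self _) b4
      _ ≤ |K| * (c / (2 * (|K| + 1)) * y ^ (β - 1 / 2)) :=
          mul_le_mul_of_nonneg_left (b3.trans a1) (abs_nonneg _)
      _ = (|K| * (c / (2 * (|K| + 1)))) * y ^ (β - 1 / 2) := by ring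
      _ ≤ c / 2 * y ^ (β - 1 / 2) := mul_le_mul_of_nonneg_right b5 b1.le
      _ < c * y ^ (β - 1 / 2) := by nlinarith
  have b7 : 0 < y ^ (1 / 2 : ℝ) := Real.rpow_pos_of_pos hy0 _
  calc K * F y = y ^ (1 / 2 : ℝ) * (K * Real.log (Real.log (Real.log y)) ^ (5 / 4 : ℝ)) := by
        unfold F
        ring
    _ < y ^ (1 / 2 : ℝ) * (c * y ^ (β - 1 / 2)) := by gcongr
    _ = c * (y ^ (1 / 2 : ℝ) * y ^ (β - 1 / 2)) := by ring
    _ = c * y ^ β := by
        rw [← Real.rpow_add hy0]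
        congr 2
        ring

/-- The Liouville summatory function on logarithmic windows. -/
theorem result :
    (∀ ρ : ℂ, riemannZeta ρ = 0 → 1 / 2 < ρ.re → ρ.re < 1 → ∃ c : ℝ, 0 < c ∧ ∀ᶠ x : ℝ in atTop,
      (∃ y ∈ Set.Icc x (x * Real.log x), c * y ^ ρ.re ≤ L y) ∧
      ∃ y ∈ Set.Icc x (x * Real.log x), L y ≤ -(c * y ^ ρ.re)) ∧
    (∀ s : ℝ, s = 1 ∨ s = -1 → ∀ K : ℝ,
      (∃ᶠ x : ℝ in atTop, ∀ y ∈ Set.Icc x (x * Real.log x), s * L y ≤ K * F y) → RiemannHypothesis) ∧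
    (∀ s : ℝ, s = 1 ∨ s = -1 → (RiemannHypothesis ↔ ∀ ε : ℝ, 0 < ε →
      ∃ᶠ x : ℝ in atTop, ∀ y ∈ Set.Icc x (x * Real.log x), s * L y ≤ y ^ (1 / 2 + ε))) := by
  refine ⟨part1, fun s hs K h => ?_, fun s hs => ⟨fun hrh ε hε => ?_, fun h => ?_⟩⟩
  · rw [Pool.Agent.W190.rh_free]
    intro ρ h0 hz
    exact key s hs ρ hz h0 (Pool.Agent.W190.zero_FF hz).2 (fun y => K * F y)
      (fun c hc => F_small K h0 c hc) h
  · obtain ⟨C, hC⟩ := Pool.Agent.R303.SW.liou_bound (σ0 := 1 / 2) le_rfl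
      (Pool.Agent.W190.rh_free.1 hrh) (1 / 2 + ε / 2) (by linarith)
    have t1 : ∀ᶠ y : ℝ in atTop, C ≤ y ^ (ε / 2) :=
      (tendsto_rpow_atTop (by linarith)).eventually_ge_atTop _
    obtain ⟨Y, hY⟩ := eventually_atTop.1 (t1.and (eventually_ge_atTop (1:ℝ)))
    refine Eventually.frequently ?_
    filter_upwards [eventually_ge_atTop Y] with x hx y hy
    obtain ⟨g1, g2⟩ := hY y (hx.trans hy.1)
    have hy0 : 0 < y := by linarith
    have h1 : |L y| ≤ y ^ (1 / 2 + ε) := by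
      refine (hC y g2).trans ?_
      calc C * y ^ (1 / 2 + ε / 2) ≤ y ^ (ε / 2) * y ^ (1 / 2 + ε / 2) := by gcongr
        _ = y ^ (1 / 2 + ε) := by
            rw [← Real.rpow_add hy0]
            congr 1
            ring
    rcases hs with rfl | rfl
    · rw [one_mul]
      exact (le_abs_self _).trans h1
    · rw [neg_one_mul]
      exact (neg_le_abs _).trans h1
  · rw [Pool.Agent.W190.rh_free]
    intro ρ h0 hz
    set ε := (ρ.re - 1 / 2) / 2 with hε
    have hε0 : 0 < ε := by rw [hε]; linarith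
    refine key s hs ρ hz h0 (Pool.Agent.W190.zero_FF hz).2 (fun y => y ^ (1 / 2 + ε)) (fun c hc => ?_) (h ε hε0)
    have t1 : ∀ᶠ y : ℝ in atTop, 1 / c < y ^ ε :=
      (tendsto_rpow_atTop hε0).eventually_gt_atTop _
    filter_upwards [t1, eventually_ge_atTop (1:ℝ)] with y g1 g2
    have hy0 : 0 < y := by linarith
    rw [div_lt_iff₀ hc] at g1
    calc y ^ (1 / 2 + ε) = 1 * y ^ (1 / 2 + ε) := (one_mul _).symm
      _ < (y ^ ε * c) * y ^ (1 / 2 + ε) := by gcongr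
      _ = c * (y ^ ε * y ^ (1 / 2 + ε)) := by ring
      _ = c * y ^ ρ.re := by
          rw [← Real.rpow_add hy0]
          congr 2
          rw [hε]
          ring

end Pool.Agent.Results.MP_a499ba_nt.LiouvilleLogWindows
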