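import Pool.Agent.R303.SW.Lsh

/-!
# The oscillation of the summatory function of the Liouville function over short intervals

`L(x) = ∑_{n ≤ x} λ(n)`.

1. If `ζ` has a zero with real part `> θ ≥ 1/2`, then for all `κ ≥ 0` with `4θ(1-θ)(κ+1) ≤ 1`, all
   `c > 0`, all `0 < ε < 1` and all large `X`: for all `0 < H ≤ X^(1-ε)` simultaneously,
   `∫_X^{X + cX/(log X)^κ} |L(x+H) - L(x)| dx ≥ H X^θ`, and the set of the `x` in this window with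
   `|L(x+H) - L(x)| ≥ H X^(θ-1)` has measure at least `H X^(-ε)`.
2. The Riemann hypothesis holds if and only if for all `0 < ε < 1`, all large `X` and all
   `X^(1-ε) ≤ H ≤ X^(1-ε/2)` one has `|L(x+H) - L(x)| < X^(1/2+ε)` for all `x` in `[X, 2X]`.
3. The Riemann hypothesis holds if and only if for all `0 < ε < 1` there are arbitrarily large `X` such that
   for at least one `X^(1-ε) ≤ H ≤ X^(1-ε/2)` the set of the `x` in `[X, 2X]` with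
   `|L(x+H) - L(x)| ≥ X^(1/2+ε)` has measure at most `X^(1-2ε)`.
-/

set_option autoImplicit false
set_option maxHeartbeats 4000000

open Filter Topology Set MeasureTheory
open Pool.Agent.W190 (SF rh_free)
open Pool.Agent.R303.SW

namespace Pool.Agent.Results.MP_a499ba_nt.LiouvilleShortIntervals

/-- `L(x)`, the sum of the Liouville function over the positive integers `n ≤ x` -/
noncomputable def Lsum (x : ℝ) : ℝ :=
  ∑ n ∈ Finset.Icc 1 ⌊x⌋₊, ((ArithmeticFunction.liouville n : ℤ) : ℝ)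

theorem part1 (θ κ c ε : ℝ) (hθ : 1 / 2 ≤ θ) (hκ : 0 ≤ κ) (hcond : 4 * θ * (1 - θ) * (κ + 1) ≤ 1)
    (hc : 0 < c) (hε : 0 < ε) (hε1 : ε < 1) (hz : ∃ s : ℂ, riemannZeta s = 0 ∧ θ < s.re) :
    ∀ᶠ X : ℝ in atTop, ∀ H : ℝ, 0 < H → H ≤ X ^ (1 - ε) →
      H * X ^ θ ≤ ∫ x in X..(X + c * X / Real.log X ^ κ), |Lsum (x + H) - Lsum x| ∧
      H * X ^ (-ε) ≤ (volume {x : ℝ | x ∈ Icc X (X + c * X / Real.log X ^ κ) ∧
        H * X ^ (θ - 1) ≤ |Lsum (x + H) - Lsum x|}).toReal := by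
  filter_upwards [liou_short hκ hc hθ hcond hz hε, la_large θ κ c ε hθ hκ hcond hc hε hε1 hz] with X g1 g2
    H hH hH1
  exact ⟨g1 H hH hH1, g2 H hH hH1⟩

theorem rh_small (hrh : RiemannHypothesis) (ε : ℝ) (hε : 0 < ε) (hε1 : ε < 1) :
    ∀ᶠ X : ℝ in atTop, ∀ H : ℝ, X ^ (1 - ε) ≤ H → H ≤ X ^ (1 - ε / 2) →
      ∀ x ∈ Icc X (2 * X), |Lsum (x + H) - Lsum x| < X ^ (1 / 2 + ε) := by
  obtain ⟨C, hC'⟩ := liou_bound le_rfl (rh_free.1 hrh) (1 / 2 + ε / 2) (by linarith)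
  have hC0 : 0 ≤ C := by
    have := (abs_nonneg _).trans (hC' 1 le_rfl)
    simpa using this
  set K := 2 * (C * 3 ^ (1 / 2 + ε / 2)) with hK
  have t1 : ∀ᶠ X : ℝ in atTop, K < X ^ (ε / 2) :=
    (tendsto_rpow_atTop (by linarith)).eventually_gt_atTop _
  filter_upwards [t1, eventually_ge_atTop (1:ℝ)] with X g1 g2 H h1 h2 x hx
  have hX : 0 < X := by linarith
  have hH0 : 0 < H := lt_of_lt_of_le (by positivity) h1
  have hHX : H ≤ X := by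
    refine h2.trans ?_
    conv_rhs => rw [← Real.rpow_one X]
    exact Real.rpow_le_rpow_of_exponent_le (by linarith) (by linarith)
  have hb : ∀ z : ℝ, 1 ≤ z → z ≤ 3 * X → |Lsum z| ≤ C * (3 * X) ^ (1 / 2 + ε / 2) := by
    intro z h hz
    refine (hC' z h).trans ?_
    exact mul_le_mul_of_nonneg_left (Real.rpow_le_rpow (by linarith) hz (by linarith)) hC0
  have h6 := hb (x + H) (by linarith [hx.1]) (by linarith [hx.2])
  have h7 := hb x (by linarith [hx.1]) (by linarith [hx.2])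
  calc |Lsum (x + H) - Lsum x| ≤ |Lsum (x + H)| + |Lsum x| := abs_sub _ _
    _ ≤ 2 * (C * (3 * X) ^ (1 / 2 + ε / 2)) := by linarith
    _ = K * X ^ (1 / 2 + ε / 2) := by
        rw [hK, Real.mul_rpow (by norm_num) hX.le]
        ring
    _ < X ^ (ε / 2) * X ^ (1 / 2 + ε / 2) := by gcongr
    _ = X ^ (1 / 2 + ε) := by
        rw [← Real.rpow_add hX]
        congr 1
        ring

theorem rh_of_isolated (h : ∀ ε : ℝ, 0 < ε → ε < 1 →
      ∃ᶠ X : ℝ in atTop, ∃ H : ℝ, X ^ (1 - ε) ≤ H ∧ H ≤ X ^ (1 - ε / 2) ∧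
        (volume {x : ℝ | x ∈ Icc X (2 * X) ∧ X ^ (1 / 2 + ε) ≤ |Lsum (x + H) - Lsum x|}).toReal ≤
          X ^ (1 - 2 * ε)) :
    RiemannHypothesis := by
  rw [rh_free]
  intro s hs hz
  have hs1 : s.re < 1 := (Pool.Agent.W190.zero_FF hz).2
  set θ := (1 / 2 + s.re) / 2 with hθ
  have h1 : 1 / 2 < θ := by rw [hθ]; linarith
  have h2 : θ < s.re := by rw [hθ]; linarith
  set ε := (2 * θ - 1) / 6 with hε
  have hε0 : 0 < ε := by rw [hε]; linarith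
  have hε1 : ε < 1 := by rw [hε]; linarith
  have h3 := part1 θ 0 1 (ε / 2) h1.le le_rfl (by nlinarith [sq_nonneg (2 * θ - 1)]) one_pos (by linarith)
    (by linarith) ⟨s, hz, h2⟩
  obtain ⟨X, ⟨H, a1, a2, a3⟩, a4, a5⟩ := ((h ε hε0 hε1).and_eventually (h3.and (eventually_gt_atTop 1))).exists
  have hX : 0 < X := by linarith
  have hH : 0 < H := lt_of_lt_of_le (by positivity) a1
  have a6 := (a4 H hH a2).2
  rw [Real.rpow_zero, one_mul, div_one, ← two_mul] at a6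
  have hsub : {x : ℝ | x ∈ Icc X (2 * X) ∧ H * X ^ (θ - 1) ≤ |Lsum (x + H) - Lsum x|} ⊆
      {x : ℝ | x ∈ Icc X (2 * X) ∧ X ^ (1 / 2 + ε) ≤ |Lsum (x + H) - Lsum x|} := by
    rintro x ⟨b1, b2⟩
    refine ⟨b1, le_trans ?_ b2⟩
    calc X ^ (1 / 2 + ε) ≤ X ^ (1 - ε) * X ^ (θ - 1) := by
          rw [← Real.rpow_add hX]
          refine Real.rpow_le_rpow_of_exponent_le a5.le ?_
          rw [hε]
          linarith
      _ ≤ _ := by gcongr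
  have hfin : volume {x : ℝ | x ∈ Icc X (2 * X) ∧ X ^ (1 / 2 + ε) ≤ |Lsum (x + H) - Lsum x|} ≠ ⊤ :=
    ((measure_mono (fun x hx => hx.1)).trans_lt (measure_Icc_lt_top (a := X) (b := 2 * X))).ne
  have a7 := ENNReal.toReal_mono hfin (measure_mono hsub)
  have a8 : X ^ (1 - ε) * X ^ (-(ε / 2)) ≤ X ^ (1 - 2 * ε) := by
    calc X ^ (1 - ε) * X ^ (-(ε / 2)) ≤ H * X ^ (-(ε / 2)) := by gcongr
      _ ≤ _ := a6.trans (a7.trans a3)
  rw [← Real.rpow_add hX] at a8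
  have a9 := (Real.rpow_le_rpow_left_iff a5).1 a8
  linarith

theorem isolated_of_small (h : ∀ ε : ℝ, 0 < ε → ε < 1 → ∀ᶠ X : ℝ in atTop, ∀ H : ℝ, X ^ (1 - ε) ≤ H →
      H ≤ X ^ (1 - ε / 2) → ∀ x ∈ Icc X (2 * X), |Lsum (x + H) - Lsum x| < X ^ (1 / 2 + ε))
    (ε : ℝ) (hε : 0 < ε) (hε1 : ε < 1) :
    ∃ᶠ X : ℝ in atTop, ∃ H : ℝ, X ^ (1 - ε) ≤ H ∧ H ≤ X ^ (1 - ε / 2) ∧
      (volume {x : ℝ | x ∈ Icc X (2 * X) ∧ X ^ (1 / 2 + ε) ≤ |Lsum (x + H) - Lsum x|}).toReal ≤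
        X ^ (1 - 2 * ε) := by
  refine Eventually.frequently ?_
  filter_upwards [h ε hε hε1, eventually_ge_atTop (1:ℝ)] with X g1 g2
  have hX : 0 < X := by linarith
  have hH : X ^ (1 - ε) ≤ X ^ (1 - ε / 2) := Real.rpow_le_rpow_of_exponent_le g2 (by linarith)
  refine ⟨X ^ (1 - ε), le_rfl, hH, ?_⟩
  have : {x : ℝ | x ∈ Icc X (2 * X) ∧ X ^ (1 / 2 + ε) ≤ |Lsum (x + X ^ (1 - ε)) - Lsum x|} = ∅ := by
    rw [eq_empty_iff_forall_notMem]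
    rintro x ⟨h1, h2⟩
    exact absurd (g1 _ le_rfl hH x h1) (not_lt.2 h2)
  rw [this, measure_empty, ENNReal.toReal_zero]
  positivity

/-- The oscillation of the Liouville summatory function over short intervals. -/
theorem result :
    (∀ θ κ c ε : ℝ, 1 / 2 ≤ θ → 0 ≤ κ → 4 * θ * (1 - θ) * (κ + 1) ≤ 1 → 0 < c → 0 < ε → ε < 1 →
      (∃ s : ℂ, riemannZeta s = 0 ∧ θ < s.re) →
      ∀ᶠ X : ℝ in atTop, ∀ H : ℝ, 0 < H → H ≤ X ^ (1 - ε) →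
        H * X ^ θ ≤ ∫ x in X..(X + c * X / Real.log X ^ κ), |Lsum (x + H) - Lsum x| ∧
        H * X ^ (-ε) ≤ (volume {x : ℝ | x ∈ Icc X (X + c * X / Real.log X ^ κ) ∧
          H * X ^ (θ - 1) ≤ |Lsum (x + H) - Lsum x|}).toReal) ∧
    (RiemannHypothesis ↔ ∀ ε : ℝ, 0 < ε → ε < 1 → ∀ᶠ X : ℝ in atTop, ∀ H : ℝ, X ^ (1 - ε) ≤ H →
      H ≤ X ^ (1 - ε / 2) → ∀ x ∈ Icc X (2 * X), |Lsum (x + H) - Lsum x| < X ^ (1 / 2 + ε)) ∧
    (RiemannHypothesis ↔ ∀ ε : ℝ, 0 < ε → ε < 1 →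
      ∃ᶠ X : ℝ in atTop, ∃ H : ℝ, X ^ (1 - ε) ≤ H ∧ H ≤ X ^ (1 - ε / 2) ∧
        (volume {x : ℝ | x ∈ Icc X (2 * X) ∧ X ^ (1 / 2 + ε) ≤ |Lsum (x + H) - Lsum x|}).toReal ≤
          X ^ (1 - 2 * ε)) :=
  ⟨part1, ⟨rh_small, fun h => rh_of_isolated (isolated_of_small h)⟩,
    ⟨fun h => isolated_of_small (rh_small h), rh_of_isolated⟩⟩

end Pool.Agent.Results.MP_a499ba_nt.LiouvilleShortIntervals
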