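import Pool.Agent.H313R3.TK.J

/-!
# The Mertens function on logarithmic windows: both signs, and the one-sided bound of Q1

`F(x) = x^(1/2) (log log log x)^(5/4)`.

1. Unconditionally: for all large `x` the Mertens function takes values `≥ c √y` and values `≤ -c √y` at
   points `y` of the window `[x, x log x]`.
2. If `ζ` has a zero with real part `β ≥ 1/2`, the same holds with `c y^β`; if there is a multiple zero
   with real part `β ≥ 1/2`, the same holds with `c y^β log y`.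
3. Let `s = 1` or `s = -1`. If for some `K` there are arbitrarily large `x` with `s M(y) ≤ K F(y)` for all
   `y ∈ [x, x log x]`, then the Riemann hypothesis holds and all nontrivial zeros are simple.
4. Hence, if one of the numbers `limsup M(x)/F(x)`, `liminf M(x)/F(x)` is finite, or if there is only a
   sequence of windows `[x, x log x]` on which `M/F` is bounded from one side, RH and simplicity follow.
-/

set_option autoImplicit false

open Filter Topology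

namespace Pool.Agent.Results.MP_a499ba_nt.MertensLogWindows

/-- The Mertens function. -/
noncomputable def M (x : ℝ) : ℝ := ∑ n ∈ Finset.Icc 1 ⌊x⌋₊, ((ArithmeticFunction.moebius n : ℤ) : ℝ)

/-- `F(x) = x^(1/2) (log log log x)^(5/4)`. -/
noncomputable def F (x : ℝ) : ℝ := x ^ (1 / 2 : ℝ) * Real.log (Real.log (Real.log x)) ^ (5 / 4 : ℝ)

lemma lll_small (K : ℝ) (g : ℝ → ℝ) (hg : ∀ᶠ y : ℝ in atTop, Real.log y ^ (1 / 2 : ℝ) ≤ g y) (c : ℝ) (hc : 0 < c) :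
    ∀ᶠ y : ℝ in atTop, K * Real.log (Real.log (Real.log y)) ^ (5 / 4 : ℝ) < c * g y := by
  -- (log z)^(5/4) = o(z^(1/2)) with z = log y
  have h1 : ∀ᶠ z : ℝ in atTop, ‖Real.log z ^ (5 / 4 : ℝ)‖ ≤ (c / (2 * (|K| + 1))) * ‖z ^ (1 / 2 : ℝ)‖ :=
    (isLittleO_log_rpow_rpow_atTop (5 / 4) (by norm_num)).def (by positivity)
  have hl := Real.tendsto_log_atTop
  have hll := hl.comp hl
  have e2 : ∀ᶠ y : ℝ in atTop, 1 ≤ Real.log (Real.log y) := hll.eventually_ge_atTop 1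
  have hlll := hl.comp hll
  have e3 : ∀ᶠ y : ℝ in atTop, 0 ≤ Real.log (Real.log (Real.log y)) := hlll.eventually_ge_atTop 0
  filter_upwards [hl.eventually h1, hl.eventually_gt_atTop 1, e2, e3, hg] with y a1 a2 a3 a4 a5
  have b1 : 0 < Real.log y ^ (1 / 2 : ℝ) := Real.rpow_pos_of_pos (by linarith) _
  rw [Real.norm_of_nonneg (Real.rpow_nonneg (by linarith) _), Real.norm_of_nonneg b1.le] at a1
  have b2 : Real.log (Real.log (Real.log y)) ≤ Real.log (Real.log y) :=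
    (Real.log_le_sub_one_of_pos (by linarith)).trans (by linarith)
  have b3 : Real.log (Real.log (Real.log y)) ^ (5 / 4 : ℝ) ≤ Real.log (Real.log y) ^ (5 / 4 : ℝ) :=
    Real.rpow_le_rpow a4 b2 (by norm_num)
  have b4 : 0 ≤ Real.log (Real.log (Real.log y)) ^ (5 / 4 : ℝ) := Real.rpow_nonneg a4 _
  have b5 : |K| * (c / (2 * (|K| + 1))) ≤ c / 2 := by
    rw [mul_div_assoc', div_le_div_iff₀ (by positivity) (by norm_num)]
    have := abs_nonneg K
    nlinarith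
  calc K * Real.log (Real.log (Real.log y)) ^ (5 / 4 : ℝ) ≤
        |K| * Real.log (Real.log (Real.log y)) ^ (5 / 4 : ℝ) := mul_le_mul_of_nonneg_right (le_abs_self _) b4
    _ ≤ |K| * (c / (2 * (|K| + 1)) * Real.log y ^ (1 / 2 : ℝ)) :=
        mul_le_mul_of_nonneg_left (b3.trans a1) (abs_nonneg _)
    _ = (|K| * (c / (2 * (|K| + 1)))) * Real.log y ^ (1 / 2 : ℝ) := by ring
    _ ≤ c / 2 * Real.log y ^ (1 / 2 : ℝ) := mul_le_mul_of_nonneg_right b5 b1.le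
    _ < c * Real.log y ^ (1 / 2 : ℝ) := by nlinarith
    _ ≤ c * g y := mul_le_mul_of_nonneg_left a5 hc.le

/-- the one-sided bound on isolated windows -/
theorem one_sided (s : ℝ) (hs : s = 1 ∨ s = -1) (K : ℝ)
    (h : ∃ᶠ x : ℝ in atTop, ∀ y ∈ Set.Icc x (x * Real.log x), s * M y ≤ K * F y)
    (ρ : ℂ) (hz : riemannZeta ρ = 0) (h0 : 0 < ρ.re) (h1 : ρ.re < 1) :
    ρ.re = 1 / 2 ∧ deriv riemannZeta ρ ≠ 0 := by
  -- no zeros to the right
  have right : ∀ ρ' : ℂ, riemannZeta ρ' = 0 → ρ'.re < 1 → ρ'.re ≤ 1 / 2 := by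
    intro ρ' hz' h1'
    by_contra hcon
    push Not at hcon
    obtain ⟨c, hc, hw⟩ := H313.TK.signs ρ' hz' hcon.le h1'
    have e1 : ∀ᶠ y : ℝ in atTop, Real.log y ^ (1 / 2 : ℝ) ≤ y ^ (ρ'.re - 1 / 2) := by
      have h2 : ∀ᶠ y : ℝ in atTop, ‖Real.log y ^ (1 / 2 : ℝ)‖ ≤ 1 * ‖y ^ (ρ'.re - 1 / 2)‖ :=
        (isLittleO_log_rpow_rpow_atTop (1 / 2) (by linarith)).def one_pos
      filter_upwards [h2, eventually_gt_atTop (1:ℝ)] with y b1 b2
      have := Real.log_pos b2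
      rw [Real.norm_of_nonneg (by positivity), Real.norm_of_nonneg (by positivity), one_mul] at b1
      exact b1
    obtain ⟨Y, hY⟩ := eventually_atTop.1 (lll_small K _ e1 c hc)
    obtain ⟨x, a1, a2, a3, a4⟩ := (h.and_eventually (hw.and ((eventually_ge_atTop Y).and
      (eventually_ge_atTop (1:ℝ))))).exists
    obtain ⟨y, hy, hy2⟩ := a2 s hs
    have hy0 : 0 < y := by linarith [hy.1]
    have b1 := hY y (a3.trans hy.1)
    have b2 : c * y ^ ρ'.re ≤ K * F y := hy2.trans (a1 y hy)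
    have b3 : c * y ^ ρ'.re = y ^ (1 / 2 : ℝ) * (c * y ^ (ρ'.re - 1 / 2)) := by
      have : y ^ ρ'.re = y ^ (1 / 2 : ℝ) * y ^ (ρ'.re - 1 / 2) := by
        rw [← Real.rpow_add hy0]
        congr 1
        ring
      rw [this]
      ring
    have b4 : K * F y = y ^ (1 / 2 : ℝ) * (K * Real.log (Real.log (Real.log y)) ^ (5 / 4 : ℝ)) := by
      unfold F
      ring
    rw [b3, b4] at b2
    have b5 := le_of_mul_le_mul_left b2 (Real.rpow_pos_of_pos hy0 _)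
    linarith
  have hhalf : ρ.re = 1 / 2 := by
    refine le_antisymm (right ρ hz h1) ?_
    have := right (1 - ρ) (H313.TK.refl_zero ρ hz h0 h1) (by simp; linarith)
    simp only [Complex.sub_re, Complex.one_re] at this
    linarith
  refine ⟨hhalf, fun hd => ?_⟩
  obtain ⟨c, hc, hw⟩ := H313.TK.signs2 ρ hz hd hhalf.ge h1
  have e1 : ∀ᶠ y : ℝ in atTop, Real.log y ^ (1 / 2 : ℝ) ≤ Real.log y := by
    filter_upwards [Real.tendsto_log_atTop.eventually_ge_atTop 1] with y b1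
    conv_rhs => rw [← Real.rpow_one (Real.log y)]
    exact Real.rpow_le_rpow_of_exponent_le b1 (by norm_num)
  obtain ⟨Y, hY⟩ := eventually_atTop.1 (lll_small K _ e1 c hc)
  obtain ⟨x, a1, a2, a3, a4⟩ := (h.and_eventually (hw.and ((eventually_ge_atTop Y).and
    (eventually_ge_atTop (1:ℝ))))).exists
  obtain ⟨y, hy, hy2⟩ := a2 s hs
  have hy0 : 0 < y := by linarith [hy.1]
  have b1 := hY y (a3.trans hy.1)
  have b2 : c * (y ^ ρ.re * Real.log y) ≤ K * F y := hy2.trans (a1 y hy)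
  have b3 : c * (y ^ ρ.re * Real.log y) = y ^ (1 / 2 : ℝ) * (c * Real.log y) := by
    rw [hhalf]
    ring
  have b4 : K * F y = y ^ (1 / 2 : ℝ) * (K * Real.log (Real.log (Real.log y)) ^ (5 / 4 : ℝ)) := by
    unfold F
    ring
  rw [b3, b4] at b2
  have b5 := le_of_mul_le_mul_left b2 (Real.rpow_pos_of_pos hy0 _)
  linarith

/-- The Mertens function on logarithmic windows. -/
theorem result :
    (∃ c : ℝ, 0 < c ∧ ∀ᶠ x : ℝ in atTop,
      (∃ y ∈ Set.Icc x (x * Real.log x), c * y ^ (1 / 2 : ℝ) ≤ M y) ∧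
      ∃ y ∈ Set.Icc x (x * Real.log x), M y ≤ -(c * y ^ (1 / 2 : ℝ))) ∧
    (∀ ρ : ℂ, riemannZeta ρ = 0 → 1 / 2 ≤ ρ.re → ρ.re < 1 → ∃ c : ℝ, 0 < c ∧ ∀ᶠ x : ℝ in atTop,
      (∃ y ∈ Set.Icc x (x * Real.log x), c * y ^ ρ.re ≤ M y) ∧
      ∃ y ∈ Set.Icc x (x * Real.log x), M y ≤ -(c * y ^ ρ.re)) ∧
    (∀ ρ : ℂ, riemannZeta ρ = 0 → deriv riemannZeta ρ = 0 → 1 / 2 ≤ ρ.re → ρ.re < 1 →
      ∃ c : ℝ, 0 < c ∧ ∀ᶠ x : ℝ in atTop,
        (∃ y ∈ Set.Icc x (x * Real.log x), c * (y ^ ρ.re * Real.log y) ≤ M y) ∧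
        ∃ y ∈ Set.Icc x (x * Real.log x), M y ≤ -(c * (y ^ ρ.re * Real.log y))) ∧
    (∀ s : ℝ, s = 1 ∨ s = -1 → ∀ K : ℝ,
      (∃ᶠ x : ℝ in atTop, ∀ y ∈ Set.Icc x (x * Real.log x), s * M y ≤ K * F y) →
      ∀ ρ : ℂ, riemannZeta ρ = 0 → 0 < ρ.re → ρ.re < 1 → ρ.re = 1 / 2 ∧ deriv riemannZeta ρ ≠ 0) := by
  have key : ∀ ρ : ℂ, riemannZeta ρ = 0 → 1 / 2 ≤ ρ.re → ρ.re < 1 → ∃ c : ℝ, 0 < c ∧ ∀ᶠ x : ℝ in atTop,
      (∃ y ∈ Set.Icc x (x * Real.log x), c * y ^ ρ.re ≤ M y) ∧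
      ∃ y ∈ Set.Icc x (x * Real.log x), M y ≤ -(c * y ^ ρ.re) := by
    intro ρ hz h0 h1
    obtain ⟨c, hc, h⟩ := H313.TK.signs ρ hz h0 h1
    refine ⟨c, hc, ?_⟩
    filter_upwards [h] with x hx
    obtain ⟨y, hy, hy2⟩ := hx 1 (Or.inl rfl)
    obtain ⟨z, hz1, hz2⟩ := hx (-1) (Or.inr rfl)
    rw [one_mul] at hy2
    exact ⟨⟨y, hy, hy2⟩, z, hz1, by rw [le_neg]; rwa [neg_one_mul] at hz2⟩
  refine ⟨?_, key, ?_, one_sided⟩
  · obtain ⟨ρ, hz, h0, h1⟩ := H313.TK.exists_zero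
    obtain ⟨c, hc, h⟩ := key ρ hz h0 h1
    refine ⟨c, hc, ?_⟩
    filter_upwards [h, eventually_ge_atTop (1:ℝ)] with x hx hx1
    obtain ⟨⟨y, hy, hy2⟩, z, hz1, hz2⟩ := hx
    have mono : ∀ w : ℝ, x ≤ w → c * w ^ (1 / 2 : ℝ) ≤ c * w ^ ρ.re := fun w hw =>
      mul_le_mul_of_nonneg_left (Real.rpow_le_rpow_of_exponent_le (hx1.trans hw) h0) hc.le
    exact ⟨⟨y, hy, (mono y hy.1).trans hy2⟩, z, hz1, hz2.trans (neg_le_neg (mono z hz1.1))⟩
  · intro ρ hz hd h0 h1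
    obtain ⟨c, hc, h⟩ := H313.TK.signs2 ρ hz hd h0 h1
    refine ⟨c, hc, ?_⟩
    filter_upwards [h] with x hx
    obtain ⟨y, hy, hy2⟩ := hx 1 (Or.inl rfl)
    obtain ⟨z, hz1, hz2⟩ := hx (-1) (Or.inr rfl)
    rw [one_mul] at hy2
    exact ⟨⟨y, hy, hy2⟩, z, hz1, by rw [le_neg]; rwa [neg_one_mul] at hz2⟩

end Pool.Agent.Results.MP_a499ba_nt.MertensLogWindows
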